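/-
helper20. MRW: powers of a substochastic kernel (PWB) and their densities (KAP).
-/
import Pool.Agent.H74.MRW.Def

set_option autoImplicit false

namespace Pool.MRW

open Finset
open scoped Classical

namespace H20

theorem pw_zero {V : Type} [Fintype V] (P : V → V → ℝ) (x y : V) :
    pw P 0 x y = if x = y then 1 else 0 := rfl

theorem pw_succ {V : Type} [Fintype V] (P : V → V → ℝ) (n : ℕ) (x y : V) :
    pw P (n + 1) x y = ∑ a, P x a * pw P n a y := rfl

theorem pw_nn {V : Type} [Fintype V] {P : V → V → ℝ} (h : ∀ u w, 0 ≤ P u w) :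
    ∀ n x y, 0 ≤ pw P n x y := by
  intro n
  induction n with
  | zero =>
    intro x y
    rw [pw_zero]
    split_ifs <;> norm_num
  | succ n ih =>
    intro x y
    rw [pw_succ]
    exact Finset.sum_nonneg fun a _ => mul_nonneg (h x a) (ih a y)

theorem pw_one {V : Type} [Fintype V] (P : V → V → ℝ) (x y : V) : pw P 1 x y = P x y := by
  rw [pw_succ]
  simp [pw_zero]

theorem pw_add {V : Type} [Fintype V] (P : V → V → ℝ) :
    ∀ m n x y, pw P (m + n) x y = ∑ w, pw P m x w * pw P n w y := by
  intro m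
  induction m with
  | zero =>
    intro n x y
    rw [Nat.zero_add]
    simp [pw_zero]
  | succ m ih =>
    intro n x y
    have e : m + 1 + n = (m + n) + 1 := by omega
    rw [e, pw_succ]
    simp only [pw_succ, ih]
    simp_rw [Finset.mul_sum, Finset.sum_mul]
    rw [Finset.sum_comm]
    refine Finset.sum_congr rfl fun w _ => Finset.sum_congr rfl fun a _ => by ring

theorem pw_row {V : Type} [Fintype V] {P : V → V → ℝ} (h : ∀ u w, 0 ≤ P u w)
    (hr : ∀ u, ∑ w, P u w ≤ 1) : ∀ n x, ∑ y, pw P n x y ≤ 1 := by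
  intro n
  induction n with
  | zero =>
    intro x
    simp [pw_zero]
  | succ n ih =>
    intro x
    simp only [pw_succ]
    rw [Finset.sum_comm]
    calc ∑ a, ∑ y, P x a * pw P n a y = ∑ a, P x a * ∑ y, pw P n a y := by
          simp_rw [Finset.mul_sum]
      _ ≤ ∑ a, P x a * 1 := Finset.sum_le_sum fun a _ => mul_le_mul_of_nonneg_left (ih a) (h x a)
      _ ≤ 1 := by simpa using hr x

theorem pw_inv {V : Type} [Fintype V] {P : V → V → ℝ} {π : V → ℝ} (h : Ch P π) :
    ∀ n y, ∑ x, π x * pw P n x y ≤ π y := by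
  intro n
  induction n with
  | zero =>
    intro y
    simp [pw_zero]
  | succ n ih =>
    intro y
    simp only [pw_succ]
    calc ∑ x, π x * ∑ a, P x a * pw P n a y = ∑ a, (∑ x, π x * P x a) * pw P n a y := by
          simp_rw [Finset.mul_sum, Finset.sum_mul]
          rw [Finset.sum_comm]
          refine Finset.sum_congr rfl fun w _ => Finset.sum_congr rfl fun a _ => by ring
      _ ≤ ∑ a, π a * pw P n a y := Finset.sum_le_sum fun a _ =>
          mul_le_mul_of_nonneg_right (h.inv a) (pw_nn h.nn n a y)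
      _ ≤ π y := ih y

end H20

open H20

/-- PWB -/
theorem t_pwb : PWBStmt := by
  intro V _ P π h
  refine ⟨pw_nn h.nn, pw_one P, pw_add P, pw_row h.nn h.row, pw_inv h, ?_, ?_⟩
  · intro c hc n hn x y
    obtain ⟨m, rfl⟩ : ∃ m, n = m + 1 := ⟨n - 1, by omega⟩
    have hc0 : 0 ≤ c := (h.nn x y).trans (hc x y)
    rw [pw_add]
    calc ∑ w, pw P m x w * pw P 1 w y ≤ ∑ w, pw P m x w * c :=
          Finset.sum_le_sum fun w _ => mul_le_mul_of_nonneg_left
            (by rw [pw_one]; exact hc w y) (pw_nn h.nn m x w)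
      _ = (∑ w, pw P m x w) * c := by rw [Finset.sum_mul]
      _ ≤ 1 * c := mul_le_mul_of_nonneg_right (pw_row h.nn h.row m x) hc0
      _ = c := one_mul c
  · intro a n m ha x y
    have ha0 : 0 ≤ a * π y := (pw_nn h.nn n x y).trans (ha x y)
    rw [pw_add]
    calc ∑ w, pw P m x w * pw P n w y ≤ ∑ w, pw P m x w * (a * π y) :=
          Finset.sum_le_sum fun w _ => mul_le_mul_of_nonneg_left (ha w y) (pw_nn h.nn m x w)
      _ = (∑ w, pw P m x w) * (a * π y) := by rw [Finset.sum_mul]
      _ ≤ 1 * (a * π y) := mul_le_mul_of_nonneg_right (pw_row h.nn h.row m x) ha0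
      _ = a * π y := one_mul _

end Pool.MRW
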