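/-
helper20. MRW: balanced arc weights (EUL).
-/
import Pool.Agent.H20.MRW.PWB

set_option autoImplicit false

namespace Pool.MRW

open Finset
open scoped Classical

namespace H20

theorem pw_sto {V : Type} [Fintype V] {P : V → V → ℝ} (hr : ∀ u, ∑ w, P u w = 1) :
    ∀ n x, ∑ y, pw P n x y = 1 := by
  intro n
  induction n with
  | zero =>
    intro x
    simp [pw_zero]
  | succ n ih =>
    intro x
    simp only [pw_succ]
    rw [Finset.sum_comm]
    calc ∑ a, ∑ y, P x a * pw P n a y = ∑ a, P x a * ∑ y, pw P n a y := by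
          simp_rw [Finset.mul_sum]
      _ = 1 := by simp only [ih, mul_one, hr]

/-- a sixteenth root -/
theorem root16 (q₀ d : ℕ) (hd : (max q₀ 2) ^ 16 ≤ d) :
    ∃ q : ℕ, q₀ ≤ q ∧ 1 ≤ q ∧ q ^ 16 ≤ d ∧ d ≤ q ^ 32 := by
  set q := Nat.findGreatest (fun q => q ^ 16 ≤ d) d with hq
  have h2 : max q₀ 2 ≤ d := (Nat.le_self_pow (by norm_num) _).trans hd
  have hle : max q₀ 2 ≤ q := Nat.le_findGreatest h2 hd
  have h16 : q ^ 16 ≤ d := Nat.findGreatest_spec (P := fun q => q ^ 16 ≤ d) h2 hd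
  have hq2 : 2 ≤ q := (le_max_right _ _).trans hle
  have hlt : d < (q + 1) ^ 16 := by
    by_contra hcon
    push Not at hcon
    have h3 : q + 1 ≤ d := (Nat.le_self_pow (by norm_num) _).trans hcon
    have := Nat.le_findGreatest (P := fun q => q ^ 16 ≤ d) h3 hcon
    rw [← hq] at this
    omega
  refine ⟨q, (le_max_left _ _).trans hle, by omega, h16, hlt.le.trans ?_⟩
  have h4 : q + 1 ≤ q ^ 2 := by nlinarith
  calc (q + 1) ^ 16 ≤ (q ^ 2) ^ 16 := Nat.pow_le_pow_left h4 16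
    _ = q ^ 32 := by rw [← pow_mul]

end H20

open H20

/-- EUL -/
theorem t_eul (hCOR : CORStmt) (hTTM : TTMStmt) (hPWB : PWBStmt) (hKAP : KAPStmt) : EULStmt := by
  intro k B
  obtain ⟨q₀, hq₀⟩ := hCOR k (32 * B)
  refine ⟨(max q₀ 2) ^ 16, ?_⟩
  intro V _ G f d hd hne hf hfG hbal hdeg hrat
  obtain ⟨q, hqq₀, hq1, hq16, hq32⟩ := root16 q₀ d hd
  have hqpos : (0 : ℝ) < q := by exact_mod_cast (by omega : 0 < q)
  -- the vertices of positive weight
  set π₀ : V → ℝ := fun v => ∑ w, f v w with hπ₀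
  have hπ₀nn : ∀ v, 0 ≤ π₀ v := fun v => Finset.sum_nonneg fun w _ => hf v w
  have hzero : ∀ u w, ¬ 0 < π₀ w → f u w = 0 := by
    intro u w hw
    have h0 : π₀ w = 0 := le_antisymm (not_lt.1 hw) (hπ₀nn w)
    have h1 : ∑ x, f x w = 0 := by rw [← hbal w]; exact h0
    exact (Finset.sum_eq_zero_iff_of_nonneg (fun x _ => hf x w)).1 h1 u (Finset.mem_univ u)
  set V' := {v : V // 0 < π₀ v} with hV'
  have hne' : Nonempty V' := by
    obtain ⟨u, w, huw⟩ := hne
    refine ⟨⟨u, ?_⟩⟩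
    exact Finset.sum_pos' (fun x _ => hf u x)
      ⟨w, Finset.mem_univ w, lt_of_le_of_ne (hf u w) (Ne.symm huw)⟩
  set π : V' → ℝ := fun v => π₀ v.1 with hπ
  set P : V' → V' → ℝ := fun u w => f u.1 w.1 / π₀ u.1 with hP
  have hsumout : ∀ u : V, ∑ w : V', f u w.1 = π₀ u := by
    intro u
    have h := Fintype.sum_subtype_add_sum_subtype (fun v => 0 < π₀ v) (fun w => f u w)
    have h2 : ∑ w : {v // ¬ 0 < π₀ v}, f u w.1 = 0 :=
      Finset.sum_eq_zero fun w _ => hzero u w.1 w.2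
    rw [h2, add_zero] at h
    exact h
  have hrow : ∀ u, ∑ w, P u w = 1 := by
    intro u
    simp only [hP]
    rw [← Finset.sum_div, hsumout, div_self u.2.ne']
  have hCh : Ch P π := by
    refine ⟨fun u w => div_nonneg (hf _ _) (hπ₀nn _), fun u => (hrow u).le, fun u => u.2, ?_⟩
    intro w
    calc ∑ u, π u * P u w = ∑ u : V', f u.1 w.1 := by
          refine Finset.sum_congr rfl fun u _ => ?_
          simp only [hπ, hP]
          rw [mul_div_cancel₀ _ u.2.ne']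
      _ ≤ ∑ x : V, f x w.1 := by
          have h := Fintype.sum_subtype_add_sum_subtype (fun v => 0 < π₀ v) (fun x => f x w.1)
          have h2 : 0 ≤ ∑ x : {v // ¬ 0 < π₀ v}, f x.1 w.1 :=
            Finset.sum_nonneg fun x _ => hf _ _
          linarith
      _ = π w := by rw [← hbal w.1]
  obtain ⟨k1, k2, k3, k4, k5⟩ := hKAP V' P π hCh
  obtain ⟨p1, -, -, -, -, -, -⟩ := hPWB V' P π hCh
  have hPle : ∀ u w, P u w ≤ 1 / (q : ℝ) ^ 16 := by
    intro u w
    have h1 := hdeg u.1 w.1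
    have h2 : ((q : ℝ) ^ 16) ≤ d := by exact_mod_cast hq16
    simp only [hP]
    rw [div_le_div_iff₀ u.2 (by positivity)]
    calc f u.1 w.1 * (q : ℝ) ^ 16 ≤ f u.1 w.1 * d := mul_le_mul_of_nonneg_left h2 (hf _ _)
      _ = d * f u.1 w.1 := mul_comm _ _
      _ ≤ 1 * π₀ u.1 := by rw [one_mul]; exact h1
  have hrat' : ∀ u w, π u ≤ (q : ℝ) ^ (32 * B) * π w := by
    intro u w
    have h1 := hrat u.1 w.1 w.2
    have h2 : ((d : ℝ)) ^ B ≤ (q : ℝ) ^ (32 * B) := by
      rw [pow_mul]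
      have h3 : (d : ℝ) ≤ (q : ℝ) ^ 32 := by exact_mod_cast hq32
      exact pow_le_pow_left₀ (by positivity) h3 B
    exact h1.trans (mul_le_mul_of_nonneg_right h2 w.2.le)
  -- total mass
  set s : ℝ := ∑ v, π v with hs
  have hspos : 0 < s := by
    obtain ⟨x⟩ := hne'
    exact Finset.sum_pos' (fun v _ => (hCh.pos v).le) ⟨x, Finset.mem_univ x, hCh.pos x⟩
  have hmass : ∀ n, 1 ≤ kap P π n * s := by
    intro n
    obtain ⟨x⟩ := hne'
    calc (1 : ℝ) = ∑ y, pw P n x y := (pw_sto hrow n x).symm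
      _ ≤ ∑ y, kap P π n * π y := Finset.sum_le_sum fun y _ => k2 n x y
      _ = kap P π n * s := by rw [hs, Finset.mul_sum]
  set M : ℕ := (k + 1) * (32 * B + 6) with hM
  have hM1 : (1 : ℝ) < (M : ℝ) ^ (32 * B + 4) := by
    have h6 : 6 ≤ M := by rw [hM]; nlinarith
    have h6' : (1 : ℝ) < M := by exact_mod_cast (by omega : 1 < M)
    exact one_lt_pow₀ h6' (by omega)
  have hflat : ∃ J : ℕ, kap P π (M ^ J) < (M : ℝ) ^ (32 * B + 4) * kap P π (M ^ (J + 1)) := by
    by_contra hcon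
    push Not at hcon
    have hdec : ∀ J : ℕ, ((M : ℝ) ^ (32 * B + 4)) ^ J * kap P π (M ^ J) ≤ kap P π 1 := by
      intro J
      induction J with
      | zero => simp
      | succ J ih =>
        calc ((M : ℝ) ^ (32 * B + 4)) ^ (J + 1) * kap P π (M ^ (J + 1))
            = ((M : ℝ) ^ (32 * B + 4)) ^ J *
                ((M : ℝ) ^ (32 * B + 4) * kap P π (M ^ (J + 1))) := by ring
          _ ≤ ((M : ℝ) ^ (32 * B + 4)) ^ J * kap P π (M ^ J) :=
              mul_le_mul_of_nonneg_left (hcon J) (by positivity)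
          _ ≤ kap P π 1 := ih
    obtain ⟨J, hJ⟩ := pow_unbounded_of_one_lt (kap P π 1 * s) hM1
    have h1 := hdec J
    have h2 := hmass (M ^ J)
    have hXpos : 0 < ((M : ℝ) ^ (32 * B + 4)) ^ J := pow_pos (by linarith) J
    have h3 : ((M : ℝ) ^ (32 * B + 4)) ^ J * 1 ≤
        ((M : ℝ) ^ (32 * B + 4)) ^ J * (kap P π (M ^ J) * s) :=
      mul_le_mul_of_nonneg_left h2 hXpos.le
    have h4 : ((M : ℝ) ^ (32 * B + 4)) ^ J * kap P π (M ^ J) * s ≤ kap P π 1 * s :=
      mul_le_mul_of_nonneg_right h1 hspos.le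
    nlinarith
  have hTT := hq₀ q hqq₀ V' P π hCh hPle hrat' hflat
  refine hTTM V V' k Subtype.val (fun u w => 0 < P u w) _ Subtype.val_injective ?_ hTT
  intro u w huw
  refine hfG _ _ ?_
  intro h0
  simp only [hP, h0, zero_div, lt_irrefl] at huw

end Pool.MRW
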