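/-
helper20. MRW: densities of the powers (KAP).
-/
import Pool.Agent.H74.MRW.Def

set_option autoImplicit false

namespace Pool.MRW

open Finset
open scoped Classical

/-- KAP -/
theorem t_kap (hPWB : PWBStmt) : KAPStmt := by
  intro V _ _ P π h
  obtain ⟨h1, h2, h3, h4, h5, h6, h7⟩ := hPWB V P π h
  have bdd : ∀ n, BddAbove (Set.range fun e : V × V => pw P n e.1 e.2 / π e.2) :=
    fun n => (Set.finite_range _).bddAbove
  have up : ∀ n x y, pw P n x y ≤ kap P π n * π y := by
    intro n x y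
    have := le_ciSup (bdd n) (x, y)
    have h' : pw P n x y / π y ≤ kap P π n := this
    rwa [div_le_iff₀ (h.pos y)] at h'
  have low : ∀ (n : ℕ) (a : ℝ), (∀ x y, pw P n x y ≤ a * π y) → kap P π n ≤ a := by
    intro n a ha
    refine ciSup_le fun e => ?_
    rw [div_le_iff₀ (h.pos e.2)]
    exact ha e.1 e.2
  refine ⟨?_, up, low, ?_, ?_⟩
  · intro n
    obtain ⟨x⟩ := ‹Nonempty V›
    exact (div_nonneg (h1 n x x) (h.pos x).le).trans (le_ciSup (bdd n) (x, x))
  · intro n
    obtain ⟨e, he⟩ := exists_eq_ciSup_of_finite (f := fun e : V × V => pw P n e.1 e.2 / π e.2)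
    refine ⟨e.1, e.2, ?_⟩
    have he' : pw P n e.1 e.2 / π e.2 = kap P π n := he
    rw [← he', div_mul_cancel₀ _ (h.pos e.2).ne']
  · intro m n hmn
    obtain ⟨r, rfl⟩ := Nat.exists_eq_add_of_le hmn
    refine low _ _ ?_
    intro x y
    have := h7 (kap P π m) m r (up m) x y
    rwa [Nat.add_comm] at this

end Pool.MRW
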