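/-
helper20. MRW: the choice of `q` (NUM) and balanced arc weights, explicit form (EULQ).
-/
import Pool.Agent.H20.MRW.EUL
import Pool.Agent.H74.MRW.Def2

set_option autoImplicit false

namespace Pool.MRW

open Finset
open scoped Classical

open H20

theorem H20.pow_aux (X y E B C : ℕ) (hy : 1 ≤ y) (hXy : X ≤ y ^ 9) (hE : 9 * (E * 16) ≤ C * B) :
    (X ^ E) ^ 16 ≤ y ^ (C * B) := by
  have h1 : (X ^ E) ^ 16 = X ^ (E * 16) := (pow_mul X E 16).symm
  have h2 : X ^ (E * 16) ≤ (y ^ 9) ^ (E * 16) := Nat.pow_le_pow_left hXy _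
  have h3 : (y ^ 9) ^ (E * 16) = y ^ (9 * (E * 16)) := (pow_mul y 9 (E * 16)).symm
  rw [h1]
  refine h2.trans ?_
  rw [h3]
  exact Nat.pow_le_pow_right hy hE

theorem H20.num_aux (C : ℕ) (hC : C = 41616) : ∀ k B d : ℕ, 1 ≤ k → 1 ≤ B →
    (k * B + 1) ^ (C * B) ≤ d →
    ∃ q : ℕ, ((k + 1) * (32 * (B + 1) + 6)) ^ (4 * (32 * (B + 1)) + 33) ≤ q ∧ q ^ 16 ≤ d ∧
      d ^ (B + 1) ≤ q ^ (32 * (B + 1)) := by
  intro k B d hk hB hd
  obtain ⟨X, hX⟩ : ∃ X, X = (k + 1) * (32 * (B + 1) + 6) := ⟨_, rfl⟩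
  obtain ⟨E, hE⟩ : ∃ E, E = 4 * (32 * (B + 1)) + 33 := ⟨_, rfl⟩
  obtain ⟨y, hy⟩ : ∃ y, y = k * B + 1 := ⟨_, rfl⟩
  rw [← hX, ← hE]
  rw [← hy] at hd
  have hkB : 1 ≤ k * B := Nat.one_le_iff_ne_zero.2 (by positivity)
  have hy2 : 2 ≤ y := by omega
  have hX2 : 2 ≤ X := by rw [hX]; nlinarith
  have hXy : X ≤ y ^ 9 := by
    have h1 : X ≤ 140 * (k * B) := by
      rw [hX]
      nlinarith [Nat.mul_le_mul hk hB]
    have h2 : 140 ≤ y ^ 8 := by
      calc 140 ≤ 2 ^ 8 := by norm_num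
        _ ≤ y ^ 8 := Nat.pow_le_pow_left hy2 8
    calc X ≤ 140 * (k * B) := h1
      _ ≤ y ^ 8 * y := Nat.mul_le_mul h2 (by omega)
      _ = y ^ 9 := by ring
  have hE' : 9 * (E * 16) ≤ C * B := by subst hC; omega
  have hbig : (X ^ E) ^ 16 ≤ d := (H20.pow_aux X y E B C (by omega) hXy hE').trans hd
  have hE0 : E ≠ 0 := by omega
  have hXE2 : 2 ≤ X ^ E := hX2.trans (Nat.le_self_pow hE0 _)
  obtain ⟨q, h1, -, h3, h4⟩ := root16 (X ^ E) d (by rw [max_eq_left hXE2]; exact hbig)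
  refine ⟨q, h1, h3, ?_⟩
  have h5 : d ^ (B + 1) ≤ (q ^ 32) ^ (B + 1) := Nat.pow_le_pow_left h4 _
  have h6 : (q ^ 32) ^ (B + 1) = q ^ (32 * (B + 1)) := (pow_mul q 32 (B + 1)).symm
  rw [← h6]
  exact h5

/-- NUM -/
theorem t_num : NUMStmt := ⟨41616, H20.num_aux 41616 rfl⟩

/-- EULQ -/
theorem t_eulq (hCOR : CORQStmt) (hTTM : TTMStmt) (hPWB : PWBStmt) (hKAP : KAPStmt) :
    EULQStmt := by
  intro k c q d hk hqbig hq16 V _ G f hne hf hfG hbal hdeg hrat'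
  have hM0 : 1 < (k + 1) * (c + 6) := by nlinarith
  have hq1 : 1 ≤ q := le_trans (Nat.one_le_iff_ne_zero.2 (by positivity)) hqbig
  have hqpos : (0 : ℝ) < q := by exact_mod_cast (by omega : 0 < q)
  -- the vertices of positive weight
  set π₀ : V → ℝ := fun v => ∑ w, f v w with hπ₀
  have hπ₀nn : ∀ v, 0 ≤ π₀ v := fun v => Finset.sum_nonneg fun w _ => hf v w
  have hzero : ∀ u w, ¬ 0 < π₀ w → f u w = 0 := by
    intro u w hw
    have h0 : π₀ w = 0 := le_antisymm (not_lt.1 hw) (hπ₀nn w)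
    have h1 : ∑ x, f x w = 0 := by rw [← hbal w]; exact h0
    exact (Finset.sum_eq_zero_iff_of_nonneg (fun x _ => hf x w)).1 h1 u (Finset.mem_univ u)
  set V' := {v : V // 0 < π₀ v} with hV'
  have hne' : Nonempty V' := by
    obtain ⟨u, w, huw⟩ := hne
    refine ⟨⟨u, ?_⟩⟩
    exact Finset.sum_pos' (fun x _ => hf u x)
      ⟨w, Finset.mem_univ w, lt_of_le_of_ne (hf u w) (Ne.symm huw)⟩
  set π : V' → ℝ := fun v => π₀ v.1 with hπ
  set P : V' → V' → ℝ := fun u w => f u.1 w.1 / π₀ u.1 with hP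
  have hsumout : ∀ u : V, ∑ w : V', f u w.1 = π₀ u := by
    intro u
    have h := Fintype.sum_subtype_add_sum_subtype (fun v => 0 < π₀ v) (fun w => f u w)
    have h2 : ∑ w : {v // ¬ 0 < π₀ v}, f u w.1 = 0 :=
      Finset.sum_eq_zero fun w _ => hzero u w.1 w.2
    rw [h2, add_zero] at h
    exact h
  have hrow : ∀ u, ∑ w, P u w = 1 := by
    intro u
    simp only [hP]
    rw [← Finset.sum_div, hsumout, div_self u.2.ne']
  have hCh : Ch P π := by
    refine ⟨fun u w => div_nonneg (hf _ _) (hπ₀nn _), fun u => (hrow u).le, fun u => u.2, ?_⟩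
    intro w
    calc ∑ u, π u * P u w = ∑ u : V', f u.1 w.1 := by
          refine Finset.sum_congr rfl fun u _ => ?_
          simp only [hπ, hP]
          rw [mul_div_cancel₀ _ u.2.ne']
      _ ≤ ∑ x : V, f x w.1 := by
          have h := Fintype.sum_subtype_add_sum_subtype (fun v => 0 < π₀ v) (fun x => f x w.1)
          have h2 : 0 ≤ ∑ x : {v // ¬ 0 < π₀ v}, f x.1 w.1 :=
            Finset.sum_nonneg fun x _ => hf _ _
          linarith
      _ = π w := by rw [← hbal w.1]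
  obtain ⟨k1, k2, k3, k4, k5⟩ := hKAP V' P π hCh
  have hPle : ∀ u w, P u w ≤ 1 / (q : ℝ) ^ 16 := by
    intro u w
    have h1 := hdeg u.1 w.1
    have h2 : ((q : ℝ) ^ 16) ≤ d := by exact_mod_cast hq16
    simp only [hP]
    rw [div_le_div_iff₀ u.2 (by positivity)]
    calc f u.1 w.1 * (q : ℝ) ^ 16 ≤ f u.1 w.1 * d := mul_le_mul_of_nonneg_left h2 (hf _ _)
      _ = d * f u.1 w.1 := mul_comm _ _
      _ ≤ 1 * π₀ u.1 := by rw [one_mul]; exact h1
  have hrat : ∀ u w, π u ≤ (q : ℝ) ^ c * π w := fun u w => hrat' u.1 w.1 w.2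
  -- total mass
  set s : ℝ := ∑ v, π v with hs
  have hspos : 0 < s := by
    obtain ⟨x⟩ := hne'
    exact Finset.sum_pos' (fun v _ => (hCh.pos v).le) ⟨x, Finset.mem_univ x, hCh.pos x⟩
  have hmass : ∀ n, 1 ≤ kap P π n * s := by
    intro n
    obtain ⟨x⟩ := hne'
    calc (1 : ℝ) = ∑ y, pw P n x y := (pw_sto hrow n x).symm
      _ ≤ ∑ y, kap P π n * π y := Finset.sum_le_sum fun y _ => k2 n x y
      _ = kap P π n * s := by rw [hs, Finset.mul_sum]
  set M : ℕ := (k + 1) * (c + 6) with hM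
  have hM1 : (1 : ℝ) < (M : ℝ) ^ (c + 4) := by
    have h6' : (1 : ℝ) < M := by exact_mod_cast hM0
    exact one_lt_pow₀ h6' (by omega)
  have hflat : ∃ J : ℕ, kap P π (M ^ J) < (M : ℝ) ^ (c + 4) * kap P π (M ^ (J + 1)) := by
    by_contra hcon
    push Not at hcon
    have hdec : ∀ J : ℕ, ((M : ℝ) ^ (c + 4)) ^ J * kap P π (M ^ J) ≤ kap P π 1 := by
      intro J
      induction J with
      | zero => simp
      | succ J ih =>
        calc ((M : ℝ) ^ (c + 4)) ^ (J + 1) * kap P π (M ^ (J + 1))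
            = ((M : ℝ) ^ (c + 4)) ^ J *
                ((M : ℝ) ^ (c + 4) * kap P π (M ^ (J + 1))) := by ring
          _ ≤ ((M : ℝ) ^ (c + 4)) ^ J * kap P π (M ^ J) :=
              mul_le_mul_of_nonneg_left (hcon J) (by positivity)
          _ ≤ kap P π 1 := ih
    obtain ⟨J, hJ⟩ := pow_unbounded_of_one_lt (kap P π 1 * s) hM1
    have h1 := hdec J
    have h2 := hmass (M ^ J)
    have hXpos : 0 < ((M : ℝ) ^ (c + 4)) ^ J := pow_pos (by linarith) J
    have h3 : ((M : ℝ) ^ (c + 4)) ^ J * 1 ≤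
        ((M : ℝ) ^ (c + 4)) ^ J * (kap P π (M ^ J) * s) :=
      mul_le_mul_of_nonneg_left h2 hXpos.le
    have h4 : ((M : ℝ) ^ (c + 4)) ^ J * kap P π (M ^ J) * s ≤ kap P π 1 * s :=
      mul_le_mul_of_nonneg_right h1 hspos.le
    nlinarith
  have hTT := hCOR k c q hk hqbig V' P π hCh hPle hrat hflat
  refine hTTM V V' k Subtype.val (fun u w => 0 < P u w) _ Subtype.val_injective ?_ hTT
  intro u w huw
  refine hfG _ _ ?_
  intro h0
  simp only [hP, h0, zero_div, lt_irrefl] at huw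

end Pool.MRW
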