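/-
helper20. MRW: stationary probability (STA) and survival (SUR).
-/
import Pool.Agent.H74.MRW.Def

set_option autoImplicit false

namespace Pool.MRW

open Finset
open scoped Classical

/-- STA -/
theorem t_sta : STAStmt := by
  intro V _ _ P hP hrow
  -- a left eigenvector
  have hdet : (Matrix.of P - 1 : Matrix V V ℝ).det = 0 := by
    rw [← Matrix.exists_mulVec_eq_zero_iff]
    refine ⟨fun _ => 1, ?_, ?_⟩
    · intro h
      obtain ⟨x⟩ := ‹Nonempty V›
      exact one_ne_zero (congrFun h x)
    · funext u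
      rw [Matrix.sub_mulVec, Matrix.one_mulVec]
      simp [Matrix.mulVec, dotProduct, hrow u]
  rw [← Matrix.exists_vecMul_eq_zero_iff] at hdet
  obtain ⟨v, hv0, hv⟩ := hdet
  have hvP : ∀ w, ∑ u, v u * P u w = v w := by
    intro w
    have := congrFun hv w
    rw [Matrix.vecMul_sub, Matrix.vecMul_one] at this
    simp only [Pi.sub_apply, Pi.zero_apply, Matrix.vecMul, dotProduct, Matrix.of_apply] at this
    linarith
  have hle : ∀ w, |v w| ≤ ∑ u, |v u| * P u w := by
    intro w
    calc |v w| = |∑ u, v u * P u w| := by rw [hvP]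
      _ ≤ ∑ u, |v u * P u w| := Finset.abs_sum_le_sum_abs _ _
      _ = ∑ u, |v u| * P u w := Finset.sum_congr rfl fun u _ => by
          rw [abs_mul, abs_of_nonneg (hP u w)]
  have hsum : ∑ w, ∑ u, |v u| * P u w = ∑ w, |v w| := by
    rw [Finset.sum_comm]
    refine Finset.sum_congr rfl fun u _ => ?_
    rw [← Finset.mul_sum, hrow u, mul_one]
  have heq : ∀ w, ∑ u, |v u| * P u w = |v w| := by
    intro w
    have h0 : ∑ w, (∑ u, |v u| * P u w - |v w|) = 0 := by
      rw [Finset.sum_sub_distrib, hsum, sub_self]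
    have h1 := (Finset.sum_eq_zero_iff_of_nonneg
      (fun w _ => sub_nonneg.2 (hle w))).1 h0 w (Finset.mem_univ w)
    linarith
  have hpos : 0 < ∑ w, |v w| := by
    obtain ⟨x, hx⟩ := Function.ne_iff.1 hv0
    exact Finset.sum_pos' (fun _ _ => abs_nonneg _) ⟨x, Finset.mem_univ x, abs_pos.2 hx⟩
  refine ⟨fun w => |v w| / ∑ w, |v w|, fun w => div_nonneg (abs_nonneg _) hpos.le, ?_, ?_⟩
  · rw [← Finset.sum_div, div_self hpos.ne']
  · intro w
    calc ∑ u, |v u| / (∑ w, |v w|) * P u w = (∑ u, |v u| * P u w) / ∑ w, |v w| := by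
          rw [Finset.sum_div]
          refine Finset.sum_congr rfl fun u _ => by ring
      _ = |v w| / ∑ w, |v w| := by rw [heq]

/-- SUR -/
theorem t_sur : SURStmt := by
  intro V _ P π U a n hP hrow hπ hπ1 hinv ha
  set Q : {v // U v} → {v // U v} → ℝ := fun u w => P u.1 w.1 with hQ
  have ha' : ∑ u : {v // ¬ U v}, π u.1 ≤ a := by
    rw [← Finset.sum_subtype (univ.filter fun u => ¬ U u) (by simp) π]
    exact ha
  set S : ℕ → {v // U v} → ℝ := fun n u => ∑ w, pw Q n u w with hS
  have hS0 : ∀ u, S 0 u = 1 := by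
    intro u
    simp [hS, pw, W]
  have hSs : ∀ n u, S (n + 1) u = ∑ b, Q u b * S n b := by
    intro n u
    show ∑ w, ∑ b, Q u b * pw Q n b w = ∑ b, Q u b * ∑ w, pw Q n b w
    rw [Finset.sum_comm]
    simp_rw [Finset.mul_sum]
  have hrow' : ∀ u : V, ∑ b : {v // U v}, P u b.1 ≤ 1 := by
    intro u
    have h := Fintype.sum_subtype_add_sum_subtype U (fun b => P u b)
    rw [hrow u] at h
    have h2 : 0 ≤ ∑ b : {v // ¬ U v}, P u b.1 := Finset.sum_nonneg fun b _ => hP _ _
    linarith
  have hS01 : ∀ n u, 0 ≤ S n u ∧ S n u ≤ 1 := by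
    intro n
    induction n with
    | zero => intro u; rw [hS0]; exact ⟨zero_le_one, le_rfl⟩
    | succ n ih =>
      intro u
      rw [hSs]
      refine ⟨Finset.sum_nonneg fun b _ => mul_nonneg (hP _ _) (ih b).1, ?_⟩
      calc ∑ b, Q u b * S n b ≤ ∑ b, Q u b * 1 :=
            Finset.sum_le_sum fun b _ => mul_le_mul_of_nonneg_left (ih b).2 (hP _ _)
        _ ≤ 1 := by simpa using hrow' u.1
  have key : ∀ n : ℕ, 1 - ((n : ℝ) + 1) * a ≤ ∑ u : {v // U v}, π u.1 * S n u := by
    intro n
    induction n with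
    | zero =>
      have h := Fintype.sum_subtype_add_sum_subtype U π
      rw [hπ1] at h
      simp only [hS0, mul_one, Nat.cast_zero, zero_add, one_mul]
      linarith
    | succ n ih =>
      have e1 : ∑ u : {v // U v}, π u.1 * S (n + 1) u =
          ∑ b : {v // U v}, S n b * ∑ u : {v // U v}, π u.1 * P u.1 b.1 := by
        simp only [hSs, hQ, Finset.mul_sum]
        rw [Finset.sum_comm]
        refine Finset.sum_congr rfl fun b _ => Finset.sum_congr rfl fun u _ => by ring
      have e2 : ∀ b : {v // U v}, ∑ u : {v // U v}, π u.1 * P u.1 b.1 =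
          π b.1 - ∑ u : {v // ¬ U v}, π u.1 * P u.1 b.1 := by
        intro b
        have h := Fintype.sum_subtype_add_sum_subtype U (fun u => π u * P u b.1)
        rw [hinv] at h
        linarith
      have e3 : ∑ b : {v // U v}, S n b * ∑ u : {v // ¬ U v}, π u.1 * P u.1 b.1 ≤ a := by
        calc ∑ b : {v // U v}, S n b * ∑ u : {v // ¬ U v}, π u.1 * P u.1 b.1
            = ∑ u : {v // ¬ U v}, π u.1 * ∑ b : {v // U v}, P u.1 b.1 * S n b := by
              simp_rw [Finset.mul_sum]
              rw [Finset.sum_comm]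
              refine Finset.sum_congr rfl fun b _ => Finset.sum_congr rfl fun u _ => by ring
          _ ≤ ∑ u : {v // ¬ U v}, π u.1 * 1 := by
              refine Finset.sum_le_sum fun u _ => mul_le_mul_of_nonneg_left ?_ (hπ _)
              calc ∑ b : {v // U v}, P u.1 b.1 * S n b ≤ ∑ b : {v // U v}, P u.1 b.1 * 1 :=
                    Finset.sum_le_sum fun b _ => mul_le_mul_of_nonneg_left (hS01 n b).2 (hP _ _)
                _ ≤ 1 := by simpa using hrow' u.1
          _ ≤ a := by simpa using ha'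
      rw [e1]
      simp only [e2, mul_sub, Finset.sum_sub_distrib]
      have e4 : ∑ b : {v // U v}, S n b * π b.1 = ∑ u : {v // U v}, π u.1 * S n u :=
        Finset.sum_congr rfl fun b _ => mul_comm _ _
      rw [e4]
      push_cast
      linarith
  have e5 : ∑ u : {v // U v}, ∑ w : {v // U v}, π u.1 * pw Q n u w =
      ∑ u : {v // U v}, π u.1 * S n u := by
    refine Finset.sum_congr rfl fun u _ => by rw [hS, Finset.mul_sum]
  rw [e5]
  exact key n

end Pool.MRW
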